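import Mathlib
import Pool.Agent.Q102.LeafPath

/-!
MP_95a718_co, Q1: every connected graph `G` on at least two vertices with
`L(G) ≤ δ'(G) + 1` has a Hamiltonian path.
-/

namespace Pool.Agent.Results.MP_95a718_co.HamPath

open Finset Classical Pool.Agent.Q102.LeafPath

variable {V : Type*} [Fintype V]

/-- number of leaves of `T` -/
noncomputable def leaves (T : SimpleGraph V) : ℕ := #{v | T.degree v = 1}

/-- `L(G)`: the largest number of leaves of a spanning tree of `G` -/
noncomputable def maxLeaves (G : SimpleGraph V) : ℕ :=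
  sSup {l | ∃ T : SimpleGraph V, T ≤ G ∧ T.IsTree ∧ leaves T = l}

/-- `δ'(G)`: the second entry of the list of vertex degrees in nondecreasing order -/
noncomputable def secondMinDegree (G : SimpleGraph V) : ℕ :=
  ((Finset.univ.val.map fun v => G.degree v).sort (· ≤ ·)).getD 1 0

theorem leaves_le (T : SimpleGraph V) : leaves T ≤ Fintype.card V := by
  unfold leaves
  exact Finset.card_le_univ _

theorem leaves_le_max {G T : SimpleGraph V} (h1 : T ≤ G) (h2 : T.IsTree) :
    leaves T ≤ maxLeaves G := by
  unfold maxLeaves
  apply le_csSup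
  · refine ⟨Fintype.card V, ?_⟩
    rintro l ⟨T', -, -, rfl⟩
    exact leaves_le T'
  · exact ⟨T, h1, h2, rfl⟩

theorem exists_w0 (G : SimpleGraph V) (hV : 2 ≤ Fintype.card V) :
    ∃ w0, ∀ u, u ≠ w0 → secondMinDegree G ≤ G.degree u := by
  by_contra hcon
  push Not at hcon
  have hne : Nonempty V := by
    rw [← Fintype.card_pos_iff]; omega
  obtain ⟨a⟩ := hne
  obtain ⟨u1, -, h1⟩ := hcon a
  obtain ⟨u2, h2n, h2⟩ := hcon u1
  set s : Multiset ℕ := Finset.univ.val.map fun v => G.degree v with hs
  set l := s.sort (· ≤ ·) with hl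
  have hdef : secondMinDegree G = l.getD 1 0 := rfl
  have hlen : l.length = Fintype.card V := by
    rw [hl, Multiset.length_sort, hs, Multiset.card_map]
    rfl
  have hsorted : l.Pairwise (· ≤ ·) := Multiset.pairwise_sort s (· ≤ ·)
  have hcoe : (l : Multiset ℕ) = s := Multiset.sort_eq s (· ≤ ·)
  have hcount : 2 ≤ (s.filter (· < secondMinDegree G)).card := by
    rw [hs, Multiset.filter_map, Multiset.card_map]
    have : 2 ≤ #(Finset.univ.filter fun v => G.degree v < secondMinDegree G) := by
      rw [← Finset.card_pair (Ne.symm h2n)]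
      apply Finset.card_le_card
      intro v hv
      rw [Finset.mem_insert, Finset.mem_singleton] at hv
      rw [Finset.mem_filter]
      rcases hv with rfl | rfl
      · exact ⟨Finset.mem_univ _, h1⟩
      · exact ⟨Finset.mem_univ _, h2⟩
    exact this
  rw [← hcoe, Multiset.filter_coe, Multiset.coe_card] at hcount
  match hm : l with
  | [] => simp at hlen; omega
  | [a] => simp at hlen; omega
  | a :: b :: t =>
    have hb : secondMinDegree G = b := by rw [hdef]; rfl
    rw [hb] at hcount
    rw [List.pairwise_cons, List.pairwise_cons] at hsorted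
    have hfil : (b :: t).filter (fun x => decide (x < b)) = [] := by
      rw [List.filter_eq_nil_iff]
      intro x hx
      rw [List.mem_cons] at hx
      rcases hx with rfl | hx
      · simp
      · have := hsorted.2.1 x hx
        simp only [decide_eq_true_eq]; omega
    rw [List.filter_cons, hfil] at hcount
    split_ifs at hcount <;> simp at hcount

theorem exists_walk {G : SimpleGraph V} {v : ℕ → V} : ∀ n, (∀ i < n, G.Adj (v i) (v (i + 1))) →
    ∃ w : G.Walk (v 0) (v n), w.support = (List.range (n + 1)).map v := by
  intro n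
  induction n with
  | zero => intro _; exact ⟨SimpleGraph.Walk.nil, rfl⟩
  | succ n ih =>
    intro h
    obtain ⟨w, hw⟩ := ih (fun i hi => h i (by omega))
    refine ⟨w.concat (h n (by omega)), ?_⟩
    rw [SimpleGraph.Walk.support_concat, hw, List.range_succ (n := n + 1), List.map_append]
    simp

/-- **Q1 of MP_95a718_co (proved).**  Every connected graph with at least two vertices satisfying
`L(G) ≤ δ'(G) + 1` has a Hamiltonian path. -/
theorem result : ∀ (V : Type) [Fintype V] (G : SimpleGraph V), G.Connected →
    2 ≤ Fintype.card V → maxLeaves G ≤ secondMinDegree G + 1 →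
    ∃ (u v : V) (p : G.Walk u v), p.IsHamiltonian := by
  intro V _ G hG hV hL
  obtain ⟨w0, hw0⟩ := exists_w0 G hV
  have hbound : ∀ p, (∃ v, Pth G p v) → p ≤ Fintype.card V := by
    rintro p ⟨v, h⟩
    have : #((range p).image v) = p := by
      rw [Finset.card_image_of_injOn, Finset.card_range]
      intro i hi j hj he
      rw [Finset.coe_range, Set.mem_Iio] at hi hj
      exact h.inj i j hi hj he
    rw [← this]
    exact Finset.card_le_univ _
  have hex : ∃ p, 1 ≤ p ∧ ¬ ∃ v, Pth G (p + 1) v := by
    refine ⟨Fintype.card V, by omega, fun h => ?_⟩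
    have := hbound _ h
    omega
  obtain ⟨hp1, hp2⟩ := Nat.find_spec hex
  have hp3 : ∃ v, Pth G (Nat.find hex) v := by
    by_contra hcon
    by_cases h1 : Nat.find hex = 1
    · rw [h1] at hcon
      apply hcon
      refine ⟨fun _ => w0, ⟨fun i j hi hj _ => by omega, fun i hi => by omega⟩⟩
    · have h2 := Nat.find_min hex (m := Nat.find hex - 1) (by omega)
      apply h2
      refine ⟨by omega, ?_⟩
      rwa [show Nat.find hex - 1 + 1 = Nat.find hex by omega]
  set p := Nat.find hex with hpdef
  obtain ⟨v, hv⟩ := hp3
  push Not at hp2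
  by_cases hall : ∀ x, ∃ i, i < p ∧ v i = x
  · obtain ⟨w, hw⟩ := exists_walk (G := G) (v := v) (p - 1) (fun i hi => hv.adj i (by omega))
    rw [show p - 1 + 1 = p by omega] at hw
    refine ⟨_, _, w, ?_⟩
    have hpath : w.IsPath := by
      apply SimpleGraph.Walk.IsPath.mk'
      rw [hw]
      apply List.Nodup.map_on _ List.nodup_range
      intro i hi j hj he
      rw [List.mem_range] at hi hj
      exact hv.inj i j hi hj he
    apply hpath.isHamiltonian_of_mem
    intro x
    obtain ⟨i, hi, rfl⟩ := hall x
    rw [hw]
    exact List.mem_map_of_mem (List.mem_range.mpr hi)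
  · exfalso
    push Not at hall
    obtain ⟨x0, hx0⟩ := hall
    obtain ⟨u, hu, x, hx, hadj⟩ := exists_cross hG ((range p).image v) (a := v 0) (b := x0)
      (Finset.mem_image_of_mem _ (by rw [Finset.mem_range]; omega)) (by
        rw [Finset.mem_image]
        rintro ⟨i, hi, he⟩
        rw [Finset.mem_range] at hi
        exact hx0 i hi he)
    obtain ⟨i, hi, rfl⟩ := Finset.mem_image.mp hu
    rw [Finset.mem_range] at hi
    have hgood : Good G p x v :=
      { pth := hv
        out := fun j hj he => hx (by
          rw [← he]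
          exact Finset.mem_image_of_mem _ (by rw [Finset.mem_range]; exact hj))
        att := ⟨i, hi, hadj.symm⟩ }
    have hctx : Ctx G (secondMinDegree G) p w0 :=
      { conn := hG
        deg := hw0
        leaf := fun T h1 h2 => (leaves_le_max h1 h2).trans hL
        max := hp2 }
    exact no_good hgood hctx

end Pool.Agent.Results.MP_95a718_co.HamPath
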